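import Pool.Agent.Helper11_MVD.CntA

/-!
# Squad MVD, row CNT: the counting lemma
-/

set_option autoImplicit false

namespace Pool.Agent.MVD.H11

open Pool.Agent.MVD

theorem bw_map (P : List ℕ) (B : ℕ → List ℕ) : Bw (P.map (fun e => e + 1)) B =
    P.flatMap (fun i => B (i + 1) ++ [3 * (i + 1) + 2]) := by
  unfold Bw
  rw [List.flatMap_map]

theorem bw_lab (P Q : List ℕ) (B : ℕ → List ℕ) : Bw (lab P Q) B =
    P.flatMap (fun i => B (i + 1) ++ [3 * (i + 1) + 2]) ++ (B 0 ++ 2 ::
      Q.flatMap (fun i => B (i + 1) ++ [3 * (i + 1) + 2])) := by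
  unfold lab
  rw [bw_append, bw_cons, bw_map, bw_map]
  simp

theorem wk_eq (κ : ℕ → ℕ) (P Q L : List ℕ) : Wk κ P Q L =
    P.flatMap (fun i => [κ i, 3 * (i + 1) + 2]) ++ (L ++ 2 ::
      Q.flatMap (fun i => [κ i, 3 * (i + 1) + 2])) := by
  unfold Wk
  rw [bw_lab]
  simp

theorem hone_gen {R : List ℕ} {B : ℕ → List ℕ} (hB : ∀ r ∈ R, SFr (B r)) {X H Y : List ℕ}
    (h : Bw R B = X ++ (H ++ Y)) (hH : SFr H) {z z' ri ri' : ℕ} (hz : z ∈ H) (hz' : z' ∈ H)
    (h1 : ∀ r ∈ R, z ∈ B r → r = ri) (h2 : ∀ r ∈ R, z' ∈ B r → r = ri') : ri = ri' := by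
  have hne : H ≠ [] := by
    intro h0
    rw [h0] at hz
    simp at hz
  obtain ⟨R1, r, R2, a, c, e1, e2, -, -⟩ := H66.fac R B X H Y hB hH hne h
  have hr : r ∈ R := by rw [e1]; simp
  have h3 : z ∈ B r := by rw [e2]; simp [hz]
  have h4 : z' ∈ B r := by rw [e2]; simp [hz']
  rw [← h1 r hr h3, ← h2 r hr h4]

theorem lab_split {P' Q' R1 R2 : List ℕ} {m : ℕ} (h : P' ++ m :: Q' = R1 ++ m :: R2)
    (h1 : m ∉ P') (h2 : m ∉ Q') : R1 = P' ∧ R2 = Q' := by
  obtain ⟨a2, e1, e2⟩ := pre_split h h1
  cases a2 with
  | nil =>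
    rw [List.append_nil] at e1
    rw [List.nil_append] at e2
    exact ⟨e1, (List.cons.inj e2).2.symm⟩
  | cons b a3 =>
    exfalso
    rw [List.cons_append] at e2
    apply h2
    rw [(List.cons.inj e2).2]
    simp

theorem cnt : CntStmt := by
  classical
  intro κ P Q L S φ M N B e g d k hPQ hS hL hB he hu heq hk hg hd hdu hd0
  obtain ⟨hPn, hQn, hdisj⟩ := List.nodup_append.mp hPQ
  set W := Wk κ P Q L with hW
  set F := L.flatMap φ with hF
  set WP := P.flatMap (fun i => [κ i, 3 * (i + 1) + 2]) with hWP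
  set WQ := Q.flatMap (fun i => [κ i, 3 * (i + 1) + 2]) with hWQ
  set UP := P.flatMap (fun i => B (i + 1) ++ [3 * (i + 1) + 2]) with hUP
  set UQ := Q.flatMap (fun i => B (i + 1) ++ [3 * (i + 1) + 2]) with hUQ
  have hWe : W = WP ++ (L ++ 2 :: WQ) := wk_eq κ P Q L
  have hUe : Bw (lab P Q) B = UP ++ (B 0 ++ 2 :: UQ) := bw_lab P Q B
  have hlabn : (lab P Q).Nodup := by
    have h1 : (P.map (fun e => e + 1)).Nodup := hPn.map (fun a b hab => by simpa using hab)
    have h2 : (Q.map (fun e => e + 1)).Nodup := hQn.map (fun a b hab => by simpa using hab)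
    unfold lab
    rw [List.nodup_append]
    refine ⟨h1, ?_, ?_⟩
    · rw [List.nodup_cons]
      refine ⟨?_, h2⟩
      intro h
      obtain ⟨x, _, hx⟩ := List.mem_map.mp h
      omega
    · intro a ha b hb hab
      obtain ⟨x, hx, hxa⟩ := List.mem_map.mp ha
      rcases List.mem_cons.mp hb with hb | hb
      · omega
      · obtain ⟨y, hy, hyb⟩ := List.mem_map.mp hb
        have : x = y := by omega
        exact hdisj x hx y hy this
  have hgL : g ∈ L := by
    rw [← List.one_le_count_iff]; omega
  have hdF : d ∈ F := by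
    rw [hF, List.mem_flatMap]
    exact ⟨g, hgL, hd⟩
  have hWle : ∀ a, L.count a ≤ W.count a := by
    intro a
    rw [hWe, List.count_append, List.count_append]
    omega
  have huge : ∀ a z, W.count a * (φ a).count z ≤ (Bw (lab P Q) B ++ e).count z := by
    intro a z
    rw [← heq, List.count_append, List.count_append]
    have := cnt_ge φ z a W
    omega
  -- no separators
  have hFs : SFr F := by
    intro s hs hs2
    obtain ⟨a, ha, hsa⟩ := List.mem_flatMap.mp hs
    have h1 : 2 ≤ W.count a := by
      rcases hL a ha with ⟨i, hi, hia⟩ | h | h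
      · rw [hia, (hS i hi).2.2.2]
      · exact le_trans h (hWle a)
      · omega
    have h2 := huge a s
    have h3 : 1 ≤ (φ a).count s := List.one_le_count_iff.mpr hsa
    have h4 : 2 * 1 ≤ W.count a * (φ a).count s := Nat.mul_le_mul h1 h3
    have h5 : (Bw (lab P Q) B).count s ≤ 1 := sep_count hs2 _ _ hlabn hB
    have h6 : e.count s = 0 := by
      rw [List.count_eq_zero]
      intro h
      exact he s h hs2
    rw [List.count_append, h6] at h2
    omega
  have hFne : F ≠ [] := by
    intro h
    rw [h] at hdF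
    simp at hdF
  obtain ⟨rs, hrs⟩ := Infinite.exists_notMem_finset (lab P Q).toFinset
  rw [List.mem_toFinset] at hrs
  have hbw : ∀ (R : List ℕ) (B1 B2 : ℕ → List ℕ), (∀ r ∈ R, B1 r = B2 r) → Bw R B1 = Bw R B2 :=
    fun R B1 B2 h => bw_congr h
  set B1 : ℕ → List ℕ := fun r => if r = rs then e else B r with hB1
  have hB1l : ∀ r ∈ lab P Q, B1 r = B r := by
    intro r hr
    rw [hB1]
    simp only
    rw [if_neg]
    intro h
    rw [h] at hr
    exact hrs hr
  have hbig : Bw (lab P Q ++ [rs]) B1 =
      (M ++ WP.flatMap φ) ++ (F ++ ((2 :: WQ).flatMap φ ++ (N ++ [3 * rs + 2]))) := by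
    rw [bw_append, hbw _ _ _ hB1l]
    have e1 : Bw [rs] B1 = e ++ [3 * rs + 2] := by
      unfold Bw
      rw [hB1]
      simp
    rw [e1, ← List.append_assoc, ← heq, hWe]
    simp only [List.flatMap_append, List.append_assoc]
    rfl
  have hB1s : ∀ r ∈ lab P Q ++ [rs], SFr (B1 r) := by
    intro r hr
    rcases List.mem_append.mp hr with h | h
    · rw [hB1l r h]; exact hB r h
    · rw [List.mem_singleton.mp h, hB1]
      simp only [if_pos]
      exact he
  obtain ⟨R1, r, R2, a, c, f1, f2, f3, f4⟩ := H66.fac _ B1 _ F _ hB1s hFs hFne hbig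
  have h0lab : (0 : ℕ) ∈ lab P Q := by unfold lab; simp
  have hcntlab : ∀ (r : ℕ), r ∈ lab P Q → r ≠ 0 → ∀ x, x ∈ B r →
      (B 0).count x + 1 ≤ (Bw (lab P Q) B).count x := by
    intro r hr hr0 x hx
    have h3 := cnt_ge2 (fun r => B r ++ [3 * r + 2]) x 0 r (Ne.symm hr0) (lab P Q)
    have h4 : 1 ≤ (lab P Q).count 0 := List.one_le_count_iff.mpr h0lab
    have h5 : 1 ≤ (lab P Q).count r := List.one_le_count_iff.mpr hr
    have h6 : (B 0).count x ≤ (B 0 ++ [3 * 0 + 2]).count x := by
      rw [List.count_append]; omega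
    have h7 : 1 ≤ (B r ++ [3 * r + 2]).count x := by
      rw [List.count_append]
      have := List.one_le_count_iff.mpr hx
      omega
    have h8 : 1 * (B 0).count x ≤ (lab P Q).count 0 * (B 0 ++ [3 * 0 + 2]).count x :=
      Nat.mul_le_mul h4 h6
    have h9 : 1 * 1 ≤ (lab P Q).count r * (B r ++ [3 * r + 2]).count x :=
      Nat.mul_le_mul h5 h7
    have h10 : ((lab P Q).flatMap (fun r => B r ++ [3 * r + 2])).count x =
      (Bw (lab P Q) B).count x := rfl
    omega
  have hB0le : ∀ x, (B 0).count x ≤ (Bw (lab P Q) B).count x := by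
    intro x
    rw [hUe, List.count_append, List.count_append]
    omega
  have hdr : d ∈ B1 r := by rw [f2]; simp [hdF]
  have hr0 : r = 0 := by
    have hrm : r ∈ lab P Q ++ [rs] := by rw [f1]; simp
    rw [List.count_append] at hdu
    by_contra hne
    rcases List.mem_append.mp hrm with h | h
    · rw [hB1l r h] at hdr
      have := hcntlab r h hne d hdr
      omega
    · rw [List.mem_singleton.mp h, hB1] at hdr
      simp only [if_pos] at hdr
      have h1 := List.one_le_count_iff.mpr hdr
      have h2 := hB0le d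
      omega
  subst hr0
  have hrs0 : rs ≠ 0 := by
    intro h
    rw [h] at hrs
    exact hrs h0lab
  have hB10 : B1 0 = B 0 := hB1l 0 h0lab
  have hlab2 : lab P Q ++ [rs] = P.map (fun e => e + 1) ++ 0 :: (Q.map (fun e => e + 1) ++ [rs]) := by
    unfold lab
    simp
  rw [hlab2] at f1
  have hR := lab_split f1 (by
      intro h
      obtain ⟨x, _, hx⟩ := List.mem_map.mp h
      omega) (by
      intro h
      rcases List.mem_append.mp h with h | h
      · obtain ⟨x, _, hx⟩ := List.mem_map.mp h
        omega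
      · exact hrs0 (List.mem_singleton.mp h).symm)
  obtain ⟨hR1, hR2⟩ := hR
  have hPl : ∀ i ∈ P, i + 1 ∈ lab P Q := by
    intro i hi
    unfold lab
    simp [hi]
  have hQl : ∀ i ∈ Q, i + 1 ∈ lab P Q := by
    intro i hi
    unfold lab
    simp [hi]
  have hPB1 : Bw R1 B1 = UP := by
    rw [hR1, hbw (P.map (fun e => e + 1)) B1 B, bw_map]
    intro r hr
    obtain ⟨x, hx, hxr⟩ := List.mem_map.mp hr
    rw [← hxr]
    exact hB1l _ (hPl x hx)
  have hQB1 : Bw R2 B1 = UQ ++ (e ++ [3 * rs + 2]) := by
    rw [hR2, bw_append, hbw (Q.map (fun e => e + 1)) B1 B, bw_map]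
    · congr 1
      unfold Bw
      rw [hB1]
      simp
    · intro r hr
      obtain ⟨x, hx, hxr⟩ := List.mem_map.mp hr
      rw [← hxr]
      exact hB1l _ (hQl x hx)
  rw [hPB1] at f3
  rw [hQB1] at f4
  rw [hB10] at f2
  have f4' : φ 2 ++ (WQ.flatMap φ ++ N) = c ++ 2 :: (UQ ++ e) := by
    have h1 : (2 :: WQ).flatMap φ ++ (N ++ [3 * rs + 2]) =
        (φ 2 ++ (WQ.flatMap φ ++ N)) ++ [3 * rs + 2] := by
      rw [List.flatMap_cons]
      simp only [List.append_assoc]
    have h2 : c ++ (3 * 0 + 2) :: (UQ ++ (e ++ [3 * rs + 2])) =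
        (c ++ 2 :: (UQ ++ e)) ++ [3 * rs + 2] := by
      simp
    rw [h1, h2] at f4
    exact List.append_cancel_right f4
  -- counts of d
  have hFd : F.count d ≤ k := by
    have := congrArg (List.count d) f2
    rw [List.count_append, List.count_append, hd0] at this
    omega
  have hgd1 : 1 ≤ (φ g).count d := List.one_le_count_iff.mpr hd
  have hphg : (φ g).count d = 1 := by
    have h1 := cnt_ge φ d g L
    rw [hg] at h1
    by_contra hne
    have h2 : 2 ≤ (φ g).count d := by omega
    have h3 : k * 2 ≤ k * (φ g).count d := Nat.mul_le_mul_left k h2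
    have : F.count d = (L.flatMap φ).count d := rfl
    omega
  have hFdk : F.count d = k := by
    have h1 := cnt_ge φ d g L
    rw [hg, hphg, Nat.mul_one] at h1
    have : F.count d = (L.flatMap φ).count d := rfl
    omega
  have hother : ∀ h ∈ L, d ∈ φ h → h = g := by
    intro h hh hdh
    by_contra hne
    have h1 := cnt_ge2 φ d g h (Ne.symm hne) L
    rw [hg, hphg, Nat.mul_one] at h1
    have h2 : 1 ≤ L.count h := List.one_le_count_iff.mpr hh
    have h3 : 1 ≤ (φ h).count d := List.one_le_count_iff.mpr hdh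
    have h4 : 1 * 1 ≤ L.count h * (φ h).count d := Nat.mul_le_mul h2 h3
    have : F.count d = (L.flatMap φ).count d := rfl
    omega
  have hac : d ∉ a ∧ d ∉ c := by
    have := congrArg (List.count d) f2
    rw [List.count_append, List.count_append, hd0, hFdk] at this
    constructor
    · rw [← List.count_eq_zero]; omega
    · rw [← List.count_eq_zero]; omega
  -- counts of z_i
  have hzle : ∀ i ∈ S, ∀ h, 2 ≤ L.count h → 3 * i + 1 ∉ φ h := by
    intro i hi h h2 hm
    have h1 := cnt_ge φ (3 * i + 1) h L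
    have h3 : 1 ≤ (φ h).count (3 * i + 1) := List.one_le_count_iff.mpr hm
    have h4 : 2 * 1 ≤ L.count h * (φ h).count (3 * i + 1) := Nat.mul_le_mul h2 h3
    have h5 := congrArg (List.count (3 * i + 1)) f2
    rw [List.count_append, List.count_append, (hu i hi).1] at h5
    have : F.count (3 * i + 1) = (L.flatMap φ).count (3 * i + 1) := rfl
    omega
  -- step 4 and 5
  have hstep : ∀ i ∈ S, Btw d (3 * i + 1) (B 0) → 3 * i + 1 ∈ F ∧
      ∃ j ∈ S, 3 * i + 1 ∈ φ (3 * j + 1) ∧ Btw g (3 * j + 1) L := by
    intro i hi hb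
    obtain ⟨a1, b1, c1, hb1, hzb⟩ := hb
    rw [f2] at hb1
    obtain ⟨a2, -, h2⟩ := pre_split hb1 hac.1
    have h2' : F ++ c = (a2 ++ d :: b1) ++ d :: c1 := by
      rw [h2]; simp
    obtain ⟨c2, -, h3⟩ := suf_split h2' hac.2
    have h3' : F = a2 ++ d :: (b1 ++ d :: c2) := by
      rw [h3]; simp
    obtain ⟨L1, h, L2, x', y', e1, e2, e3, e4⟩ := flat_split φ d L _ _ h3'
    have hh : h = g := hother h (by rw [e1]; simp) (by rw [e2]; simp)
    subst hh
    have hdy' : d ∉ y' := by
      intro hm
      have := hphg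
      rw [e2, List.count_append, List.count_cons] at this
      have h9 := List.one_le_count_iff.mpr hm
      simp only [beq_self_eq_true, if_true] at this
      omega
    obtain ⟨b2, h5, h6⟩ := pre_split e4.symm hdy'
    obtain ⟨L3, h', L4, x'', y'', g1, g2, g3, g4⟩ := flat_split φ d L2 _ _ h6
    have hh' : h' = h := hother h' (by rw [e1, g1]; simp) (by rw [g2]; simp)
    subst hh'
    have hzg : 3 * i + 1 ∉ φ h' := hzle i hi h' (by omega)
    have hzL3 : 3 * i + 1 ∈ L3.flatMap φ := by
      rw [h5, g3] at hzb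
      rcases List.mem_append.mp hzb with hm | hm
      · exfalso
        apply hzg
        rw [e2]
        simp [hm]
      · rcases List.mem_append.mp hm with hm | hm
        · exact hm
        · exfalso
          apply hzg
          rw [g2]
          simp [hm]
    obtain ⟨t, ht, hzt⟩ := List.mem_flatMap.mp hzL3
    have htL : t ∈ L := by
      rw [e1, g1]
      simp [ht]
    refine ⟨by rw [hF, List.mem_flatMap]; exact ⟨t, htL, hzt⟩, ?_⟩
    have hbt : Btw h' t L := ⟨L1, L3, L4, by rw [e1, g1], ht⟩
    rcases hL t htL with ⟨j, hj, hjt⟩ | hc | hc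
    · rw [hjt] at hzt hbt
      exact ⟨j, hj, hzt, hbt⟩
    · exact absurd hzt (hzle i hi t hc)
    · exfalso
      have h7 := huge t (3 * i + 1)
      have h8 : 1 ≤ (φ t).count (3 * i + 1) := List.one_le_count_iff.mpr hzt
      have h9 : 3 * 1 ≤ W.count t * (φ t).count (3 * i + 1) := Nat.mul_le_mul hc h8
      rw [(hu i hi).2.2] at h7
      omega
  -- counts in the parts
  have hpart : ∀ i ∈ S, 3 * i + 1 ∈ F → 3 * i + 1 ∉ a ∧ 3 * i + 1 ∉ c := by
    intro i hi hm
    have h5 := congrArg (List.count (3 * i + 1)) f2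
    rw [List.count_append, List.count_append, (hu i hi).1] at h5
    have h6 := List.one_le_count_iff.mpr hm
    constructor
    · rw [← List.count_eq_zero]; omega
    · rw [← List.count_eq_zero]; omega
  have hcnt2 : ∀ i ∈ S, UP.count (3 * i + 1) + UQ.count (3 * i + 1) + e.count (3 * i + 1) = 1 := by
    intro i hi
    have h1 := (hu i hi).2.2
    rw [hUe] at h1
    rw [List.count_append, List.count_append, List.count_append, List.count_cons,
      (hu i hi).1] at h1
    have h2 : ((2 : ℕ) == 3 * i + 1) = false := by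
      simp only [beq_eq_false_iff_ne, ne_eq]
      omega
    rw [h2] at h1
    simp only [Bool.false_eq_true, if_false, Nat.add_zero] at h1
    omega
  have hPge : ∀ i ∈ S, i ∈ P → 1 ≤ UP.count (3 * i + 1) := by
    intro i hi hiP
    have h3 := cnt_ge (fun i => B (i + 1) ++ [3 * (i + 1) + 2]) (3 * i + 1) i P
    have h4 : 1 ≤ P.count i := List.one_le_count_iff.mpr hiP
    have h6 : 1 ≤ (B (i + 1) ++ [3 * (i + 1) + 2]).count (3 * i + 1) := by
      rw [List.count_append, (hu i hi).2.1]; omega
    have h8 : 1 * 1 ≤ P.count i * (B (i + 1) ++ [3 * (i + 1) + 2]).count (3 * i + 1) :=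
      Nat.mul_le_mul h4 h6
    have : UP.count (3 * i + 1) =
      (P.flatMap (fun i => B (i + 1) ++ [3 * (i + 1) + 2])).count (3 * i + 1) := rfl
    omega
  have hQge : ∀ i ∈ S, i ∈ Q → 1 ≤ UQ.count (3 * i + 1) := by
    intro i hi hiP
    have h3 := cnt_ge (fun i => B (i + 1) ++ [3 * (i + 1) + 2]) (3 * i + 1) i Q
    have h4 : 1 ≤ Q.count i := List.one_le_count_iff.mpr hiP
    have h6 : 1 ≤ (B (i + 1) ++ [3 * (i + 1) + 2]).count (3 * i + 1) := by
      rw [List.count_append, (hu i hi).2.1]; omega
    have h8 : 1 * 1 ≤ Q.count i * (B (i + 1) ++ [3 * (i + 1) + 2]).count (3 * i + 1) :=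
      Nat.mul_le_mul h4 h6
    have : UQ.count (3 * i + 1) =
      (Q.flatMap (fun i => B (i + 1) ++ [3 * (i + 1) + 2])).count (3 * i + 1) := rfl
    omega
  -- only one place block contains z_i
  have huniP : ∀ i ∈ S, i ∈ P → ∀ s ∈ P, 3 * i + 1 ∈ B (s + 1) → s = i := by
    intro i hi hiP s hs hm
    by_contra hsi
    have h3 := cnt_ge2 (fun i => B (i + 1) ++ [3 * (i + 1) + 2]) (3 * i + 1) i s (Ne.symm hsi) P
    have h4 : 1 ≤ P.count i := List.one_le_count_iff.mpr hiP
    have h5 : 1 ≤ P.count s := List.one_le_count_iff.mpr hs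
    have h6 : 1 ≤ (B (i + 1) ++ [3 * (i + 1) + 2]).count (3 * i + 1) := by
      rw [List.count_append, (hu i hi).2.1]; omega
    have h7 : 1 ≤ (B (s + 1) ++ [3 * (s + 1) + 2]).count (3 * i + 1) := by
      rw [List.count_append]
      have := List.one_le_count_iff.mpr hm
      omega
    have h8 : 1 * 1 ≤ P.count i * (B (i + 1) ++ [3 * (i + 1) + 2]).count (3 * i + 1) :=
      Nat.mul_le_mul h4 h6
    have h9 : 1 * 1 ≤ P.count s * (B (s + 1) ++ [3 * (s + 1) + 2]).count (3 * i + 1) :=
      Nat.mul_le_mul h5 h7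
    have h10 : UP.count (3 * i + 1) =
      (P.flatMap (fun i => B (i + 1) ++ [3 * (i + 1) + 2])).count (3 * i + 1) := rfl
    have h11 := hcnt2 i hi
    omega
  have huniQ : ∀ i ∈ S, i ∈ Q → ∀ s ∈ Q, 3 * i + 1 ∈ B (s + 1) → s = i := by
    intro i hi hiP s hs hm
    by_contra hsi
    have h3 := cnt_ge2 (fun i => B (i + 1) ++ [3 * (i + 1) + 2]) (3 * i + 1) i s (Ne.symm hsi) Q
    have h4 : 1 ≤ Q.count i := List.one_le_count_iff.mpr hiP
    have h5 : 1 ≤ Q.count s := List.one_le_count_iff.mpr hs
    have h6 : 1 ≤ (B (i + 1) ++ [3 * (i + 1) + 2]).count (3 * i + 1) := by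
      rw [List.count_append, (hu i hi).2.1]; omega
    have h7 : 1 ≤ (B (s + 1) ++ [3 * (s + 1) + 2]).count (3 * i + 1) := by
      rw [List.count_append]
      have := List.one_le_count_iff.mpr hm
      omega
    have h8 : 1 * 1 ≤ Q.count i * (B (i + 1) ++ [3 * (i + 1) + 2]).count (3 * i + 1) :=
      Nat.mul_le_mul h4 h6
    have h9 : 1 * 1 ≤ Q.count s * (B (s + 1) ++ [3 * (s + 1) + 2]).count (3 * i + 1) :=
      Nat.mul_le_mul h5 h7
    have h10 : UQ.count (3 * i + 1) =
      (Q.flatMap (fun i => B (i + 1) ++ [3 * (i + 1) + 2])).count (3 * i + 1) := rfl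
    have h11 := hcnt2 i hi
    omega
  have hHs : ∀ j ∈ S, SFr (φ (3 * j + 1)) := by
    intro j hj s hs
    apply hFs
    rw [hF, List.mem_flatMap]
    refine ⟨3 * j + 1, ?_, hs⟩
    rw [← List.one_le_count_iff, (hS j hj).2.2.1]
  have hwsplit : ∀ (T : List ℕ) (j : ℕ), j ∈ T → j ∈ S → ∃ X Y : List ℕ,
      (T.flatMap (fun i => [κ i, 3 * (i + 1) + 2])).flatMap φ = X ++ (φ (3 * j + 1) ++ Y) := by
    intro T j hj hjS
    obtain ⟨T1, T2, hT⟩ := List.append_of_mem hj
    refine ⟨(T1.flatMap (fun i => [κ i, 3 * (i + 1) + 2])).flatMap φ,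
      φ (3 * (j + 1) + 2) ++ (T2.flatMap (fun i => [κ i, 3 * (i + 1) + 2])).flatMap φ, ?_⟩
    rw [hT, List.flatMap_append, List.flatMap_cons, List.flatMap_append, (hS j hjS).2.1]
    simp
  constructor
  · -- part P
    intro hall
    have hex : ∀ i ∈ S, i ∈ P → ∃ j ∈ S, j ∈ P ∧ 3 * i + 1 ∈ φ (3 * j + 1) := by
      intro i hi hiP
      obtain ⟨hzF, j, hj, hjz, -⟩ := hstep i hi (hall i hi hiP)
      refine ⟨j, hj, ?_, hjz⟩
      rcases List.mem_append.mp (hS j hj).1 with h | h
      · exact h
      · exfalso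
        obtain ⟨X, Y, hXY⟩ := hwsplit Q j h hj
        have h1 : 3 * i + 1 ∈ c ++ 2 :: (UQ ++ e) := by
          rw [← f4']
          have h2 : WQ.flatMap φ = X ++ (φ (3 * j + 1) ++ Y) := hXY
          rw [h2]
          simp [hjz]
        have h3 := hcnt2 i hi
        have h4 := hPge i hi hiP
        rcases List.mem_append.mp h1 with h1 | h1
        · exact (hpart i hi hzF).2 h1
        · rcases List.mem_cons.mp h1 with h1 | h1
          · omega
          · rcases List.mem_append.mp h1 with h1 | h1
            · have := List.one_le_count_iff.mpr h1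
              omega
            · have := List.one_le_count_iff.mpr h1
              omega
    have hcore := core P S B [] a κ φ M [] hPn (fun i hi _ => (hS i hi).2.1)
      (fun i hi _ => (hu i hi).2.1) ?_ ?_ ?_ hex
    · intro i hi hiP
      obtain ⟨hzF, j, hj, hjz, hbt⟩ := hstep i hi (hall i hi hiP)
      have hjP : j ∈ P := by
        rcases List.mem_append.mp (hS j hj).1 with h | h
        · exact h
        · exfalso
          obtain ⟨X, Y, hXY⟩ := hwsplit Q j h hj
          have h1 : 3 * i + 1 ∈ c ++ 2 :: (UQ ++ e) := by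
            rw [← f4']
            have h2 : WQ.flatMap φ = X ++ (φ (3 * j + 1) ++ Y) := hXY
            rw [h2]
            simp [hjz]
          have h3 := hcnt2 i hi
          have h4 := hPge i hi hiP
          rcases List.mem_append.mp h1 with h1 | h1
          · exact (hpart i hi hzF).2 h1
          · rcases List.mem_cons.mp h1 with h1 | h1
            · omega
            · rcases List.mem_append.mp h1 with h1 | h1
              · have := List.one_le_count_iff.mpr h1
                omega
              · have := List.one_le_count_iff.mpr h1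
                omega
      have hij := hcore i hi hiP j hj hjP hjz
      rw [hij]
      rw [hij] at hjz
      exact ⟨hbt, hjz⟩
    · intro i hi hiP
      obtain ⟨hzF, -⟩ := hstep i hi (hall i hi hiP)
      have h1 : a.count (3 * i + 1) = 0 := List.count_eq_zero.mpr (hpart i hi hzF).1
      rw [List.nil_append, List.count_append, h1]
      have h2 := hPge i hi hiP
      have h3 := hcnt2 i hi
      have h4 : UP.count (3 * i + 1) =
        (P.flatMap (fun i => B (i + 1) ++ [3 * (i + 1) + 2])).count (3 * i + 1) := rfl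
      omega
    · rw [List.append_nil, List.nil_append]
      exact f3
    · intro j hj hjP i hi hiP i' hi' hiP' hz hz'
      obtain ⟨X, Y, hXY⟩ := hwsplit P j hjP hj
      have hXY' : WP.flatMap φ = X ++ (φ (3 * j + 1) ++ Y) := hXY
      set B2 : ℕ → List ℕ := fun r => if r = rs then a else B r with hB2
      have hB2l : ∀ r ∈ P.map (fun e => e + 1), B2 r = B r := by
        intro r hr
        rw [hB2]
        simp only
        rw [if_neg]
        intro h
        rw [h] at hr
        obtain ⟨x, hx, hxr⟩ := List.mem_map.mp hr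
        rw [← hxr] at hrs
        exact hrs (hPl x hx)
      have hbig2 : Bw (P.map (fun e => e + 1) ++ [rs]) B2 =
          (M ++ X) ++ (φ (3 * j + 1) ++ (Y ++ [3 * rs + 2])) := by
        rw [bw_append, hbw _ _ _ hB2l, bw_map]
        have e1 : Bw [rs] B2 = a ++ [3 * rs + 2] := by
          unfold Bw
          rw [hB2]
          simp
        have e2 : P.flatMap (fun i => B (i + 1) ++ [3 * (i + 1) + 2]) = UP := rfl
        rw [e1, e2, ← List.append_assoc, ← f3, hXY']
        simp only [List.append_assoc]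
      have h1 := hone_gen (ri := i + 1) (ri' := i' + 1) ?_ hbig2 (hHs j hj) hz hz' ?_ ?_
      · omega
      · intro r hr
        rcases List.mem_append.mp hr with h | h
        · rw [hB2l r h]
          obtain ⟨x, hx, hxr⟩ := List.mem_map.mp h
          rw [← hxr]
          exact hB _ (hPl x hx)
        · rw [List.mem_singleton.mp h, hB2]
          simp only [if_pos]
          intro s hs
          exact hB 0 h0lab s (by rw [f2]; simp [hs])
      · intro r hr hzr
        obtain ⟨hzF, -⟩ := hstep i hi (hall i hi hiP)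
        rcases List.mem_append.mp hr with h | h
        · rw [hB2l r h] at hzr
          obtain ⟨x, hx, hxr⟩ := List.mem_map.mp h
          rw [← hxr] at hzr ⊢
          rw [huniP i hi hiP x hx hzr]
        · exfalso
          rw [List.mem_singleton.mp h, hB2] at hzr
          simp only [if_pos] at hzr
          exact (hpart i hi hzF).1 hzr
      · intro r hr hzr
        obtain ⟨hzF, -⟩ := hstep i' hi' (hall i' hi' hiP')
        rcases List.mem_append.mp hr with h | h
        · rw [hB2l r h] at hzr
          obtain ⟨x, hx, hxr⟩ := List.mem_map.mp h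
          rw [← hxr] at hzr ⊢
          rw [huniP i' hi' hiP' x hx hzr]
        · exfalso
          rw [List.mem_singleton.mp h, hB2] at hzr
          simp only [if_pos] at hzr
          exact (hpart i' hi' hzF).1 hzr
  · -- part Q
    intro hall
    have hjQ : ∀ i ∈ S, i ∈ Q → ∀ j ∈ S, 3 * i + 1 ∈ φ (3 * j + 1) → j ∈ Q := by
      intro i hi hiQ j hj hjz
      obtain ⟨hzF, -⟩ := hstep i hi (hall i hi hiQ)
      rcases List.mem_append.mp (hS j hj).1 with h | h
      · exfalso
        obtain ⟨X, Y, hXY⟩ := hwsplit P j h hj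
        have h1 : 3 * i + 1 ∈ UP ++ a := by
          rw [← f3]
          have h2 : WP.flatMap φ = X ++ (φ (3 * j + 1) ++ Y) := hXY
          rw [h2]
          simp [hjz]
        have h3 := hcnt2 i hi
        have h4 := hQge i hi hiQ
        rcases List.mem_append.mp h1 with h1 | h1
        · have := List.one_le_count_iff.mpr h1
          omega
        · exact (hpart i hi hzF).1 h1
      · exact h
    have hex : ∀ i ∈ S, i ∈ Q → ∃ j ∈ S, j ∈ Q ∧ 3 * i + 1 ∈ φ (3 * j + 1) := by
      intro i hi hiQ
      obtain ⟨hzF, j, hj, hjz, -⟩ := hstep i hi (hall i hi hiQ)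
      exact ⟨j, hj, hjQ i hi hiQ j hj hjz, hjz⟩
    have hcore := core Q S B (c ++ [2]) e κ φ (φ 2) N hQn (fun i hi _ => (hS i hi).2.1)
      (fun i hi _ => (hu i hi).2.1) ?_ ?_ ?_ hex
    · intro i hi hiQ
      obtain ⟨hzF, j, hj, hjz, hbt⟩ := hstep i hi (hall i hi hiQ)
      have hij := hcore i hi hiQ j hj (hjQ i hi hiQ j hj hjz) hjz
      rw [hij]
      rw [hij] at hjz
      exact ⟨hbt, hjz⟩
    · intro i hi hiQ
      obtain ⟨hzF, -⟩ := hstep i hi (hall i hi hiQ)
      have h1 : c.count (3 * i + 1) = 0 := List.count_eq_zero.mpr (hpart i hi hzF).2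
      have h5 : ([2] : List ℕ).count (3 * i + 1) = 0 := by
        rw [List.count_eq_zero, List.mem_singleton]
        omega
      rw [List.count_append, List.count_append, List.count_append, h1, h5]
      have h2 := hQge i hi hiQ
      have h3 := hcnt2 i hi
      have h4 : UQ.count (3 * i + 1) =
        (Q.flatMap (fun i => B (i + 1) ++ [3 * (i + 1) + 2])).count (3 * i + 1) := rfl
      omega
    · have h1 : (c ++ [2]) ++ (UQ ++ e) = c ++ 2 :: (UQ ++ e) := by simp
      exact f4'.trans h1.symm
    · intro j hj hjQ' i hi hiQ i' hi' hiQ' hz hz'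
      obtain ⟨X, Y, hXY⟩ := hwsplit Q j hjQ' hj
      have hXY' : WQ.flatMap φ = X ++ (φ (3 * j + 1) ++ Y) := hXY
      set B2 : ℕ → List ℕ := fun r => if r = rs then e else if r = 0 then c else B r with hB2
      have hB2l : ∀ r ∈ Q.map (fun e => e + 1), B2 r = B r := by
        intro r hr
        obtain ⟨x, hx, hxr⟩ := List.mem_map.mp hr
        rw [hB2]
        simp only
        rw [if_neg, if_neg]
        · omega
        · intro h
          rw [h] at hxr
          rw [← hxr] at hrs
          exact hrs (hQl x hx)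
      have hB20 : B2 0 = c := by
        rw [hB2]
        simp only
        rw [if_neg (Ne.symm hrs0)]
        simp
      have hbig2 : Bw (0 :: (Q.map (fun e => e + 1) ++ [rs])) B2 =
          (φ 2 ++ X) ++ (φ (3 * j + 1) ++ (Y ++ (N ++ [3 * rs + 2]))) := by
        rw [bw_cons, bw_append, hbw _ _ _ hB2l, bw_map, hB20]
        have e1 : Bw [rs] B2 = e ++ [3 * rs + 2] := by
          unfold Bw
          rw [hB2]
          simp
        have e2 : Q.flatMap (fun i => B (i + 1) ++ [3 * (i + 1) + 2]) = UQ := rfl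
        have e3 : (c ++ [3 * 0 + 2]) ++ (UQ ++ (e ++ [3 * rs + 2])) =
            (c ++ 2 :: (UQ ++ e)) ++ [3 * rs + 2] := by simp
        rw [e1, e2, e3, ← f4', hXY']
        simp only [List.append_assoc]
      have h1 := hone_gen (ri := i + 1) (ri' := i' + 1) ?_ hbig2 (hHs j hj) hz hz' ?_ ?_
      · omega
      · intro r hr
        rcases List.mem_cons.mp hr with h | h
        · rw [h, hB20]
          intro s hs
          exact hB 0 h0lab s (by rw [f2]; simp [hs])
        · rcases List.mem_append.mp h with h | h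
          · rw [hB2l r h]
            obtain ⟨x, hx, hxr⟩ := List.mem_map.mp h
            rw [← hxr]
            exact hB _ (hQl x hx)
          · rw [List.mem_singleton.mp h, hB2]
            simp only [if_pos]
            exact he
      · intro r hr hzr
        obtain ⟨hzF, -⟩ := hstep i hi (hall i hi hiQ)
        rcases List.mem_cons.mp hr with h | h
        · exfalso
          rw [h, hB20] at hzr
          exact (hpart i hi hzF).2 hzr
        · rcases List.mem_append.mp h with h | h
          · rw [hB2l r h] at hzr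
            obtain ⟨x, hx, hxr⟩ := List.mem_map.mp h
            rw [← hxr] at hzr ⊢
            rw [huniQ i hi hiQ x hx hzr]
          · exfalso
            rw [List.mem_singleton.mp h, hB2] at hzr
            simp only [if_pos] at hzr
            have h3 := hcnt2 i hi
            have h4 := hQge i hi hiQ
            have := List.one_le_count_iff.mpr hzr
            omega
      · intro r hr hzr
        obtain ⟨hzF, -⟩ := hstep i' hi' (hall i' hi' hiQ')
        rcases List.mem_cons.mp hr with h | h
        · exfalso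
          rw [h, hB20] at hzr
          exact (hpart i' hi' hzF).2 hzr
        · rcases List.mem_append.mp h with h | h
          · rw [hB2l r h] at hzr
            obtain ⟨x, hx, hxr⟩ := List.mem_map.mp h
            rw [← hxr] at hzr ⊢
            rw [huniQ i' hi' hiQ' x hx hzr]
          · exfalso
            rw [List.mem_singleton.mp h, hB2] at hzr
            simp only [if_pos] at hzr
            have h3 := hcnt2 i' hi'
            have h4 := hQge i' hi' hiQ'
            have := List.one_le_count_iff.mpr hzr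
            omega

end Pool.Agent.MVD.H11
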