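import Pool.Agent.Helper66_MVD.FAC
import Pool.Agent.MVD.StmtsLoc

/-!
# Squad MVD, row CNT: the counting lemma (part A: list lemmas)
-/

set_option autoImplicit false

namespace Pool.Agent.MVD.H11

open Pool.Agent.MVD

theorem flat_split (φ : ℕ → List ℕ) (d : ℕ) : ∀ (L x y : List ℕ), L.flatMap φ = x ++ d :: y →
    ∃ L1 h L2 x' y', L = L1 ++ h :: L2 ∧ φ h = x' ++ d :: y' ∧ x = L1.flatMap φ ++ x' ∧
      y = y' ++ L2.flatMap φ := by
  intro L
  induction L with
  | nil =>
    intro x y h
    simp at h
  | cons a L ih =>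
    intro x y h
    rw [List.flatMap_cons] at h
    rcases List.append_eq_append_iff.mp h with ⟨a', h1, h2⟩ | ⟨c', h1, h2⟩
    · obtain ⟨L1, b, L2, x', y', e1, e2, e3, e4⟩ := ih a' y h2
      refine ⟨a :: L1, b, L2, x', y', by rw [e1]; rfl, e2, ?_, e4⟩
      rw [h1, e3, List.flatMap_cons, List.append_assoc]
    · cases c' with
      | nil =>
        rw [List.append_nil] at h1
        rw [List.nil_append] at h2
        obtain ⟨L1, b, L2, x', y', e1, e2, e3, e4⟩ := ih [] y h2.symm
        refine ⟨a :: L1, b, L2, x', y', by rw [e1]; rfl, e2, ?_, e4⟩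
        rw [← h1, List.flatMap_cons, List.append_assoc, ← e3, List.append_nil]
      | cons b c'' =>
        rw [List.cons_append] at h2
        obtain ⟨h3, h4⟩ := List.cons.inj h2
        subst h3
        exact ⟨[], a, L, x, c'', rfl, h1, by simp, h4⟩

theorem pre_split {d : ℕ} {a X a1 Y : List ℕ} (h : a ++ X = a1 ++ d :: Y) (hd : d ∉ a) :
    ∃ a2, a1 = a ++ a2 ∧ X = a2 ++ d :: Y := by
  rcases List.append_eq_append_iff.mp h with ⟨a', h1, h2⟩ | ⟨c', h1, h2⟩
  · exact ⟨a', h1, h2⟩
  · cases c' with
    | nil =>
      rw [List.append_nil] at h1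
      exact ⟨[], by rw [List.append_nil, h1], by rw [List.nil_append] at h2 ⊢; exact h2.symm⟩
    | cons b c'' =>
      rw [List.cons_append] at h2
      obtain ⟨h3, h4⟩ := List.cons.inj h2
      subst h3
      exfalso
      apply hd
      rw [h1]
      simp

theorem suf_split {d : ℕ} {X c Y c1 : List ℕ} (h : X ++ c = Y ++ d :: c1) (hd : d ∉ c) :
    ∃ c2, c1 = c2 ++ c ∧ X = Y ++ d :: c2 := by
  rcases List.append_eq_append_iff.mp h with ⟨a', h1, h2⟩ | ⟨c', h1, h2⟩
  · -- Y = X ++ a', c = a' ++ d :: c1
    exfalso
    apply hd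
    rw [h2]
    simp
  · cases c' with
    | nil =>
      exfalso
      apply hd
      rw [List.nil_append] at h2
      rw [← h2]
      simp
    | cons b c'' =>
      rw [List.cons_append] at h2
      obtain ⟨h3, h4⟩ := List.cons.inj h2
      subst h3
      exact ⟨c'', h4, h1⟩

theorem cnt_ge (φ : ℕ → List ℕ) (d h : ℕ) : ∀ L : List ℕ,
    L.count h * (φ h).count d ≤ (L.flatMap φ).count d := by
  intro L
  induction L with
  | nil => simp
  | cons a L ih =>
    rw [List.flatMap_cons, List.count_append, List.count_cons]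
    by_cases hah : a = h
    · subst hah
      simp only [beq_self_eq_true, if_true]
      rw [Nat.add_mul, Nat.one_mul]
      omega
    · have : (a == h) = false := by simpa using hah
      rw [this]
      simp only [Bool.false_eq_true, if_false, Nat.add_zero]
      omega

theorem cnt_ge2 (φ : ℕ → List ℕ) (d g h : ℕ) (hgh : g ≠ h) : ∀ L : List ℕ,
    L.count g * (φ g).count d + L.count h * (φ h).count d ≤ (L.flatMap φ).count d := by
  intro L
  induction L with
  | nil => simp
  | cons a L ih =>
    rw [List.flatMap_cons, List.count_append, List.count_cons, List.count_cons]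
    by_cases hag : a = g
    · subst hag
      have h2 : (a == h) = false := by simpa using hgh
      rw [h2]
      simp only [beq_self_eq_true, if_true, Bool.false_eq_true, if_false, Nat.add_zero]
      rw [Nat.add_mul, Nat.one_mul]
      omega
    · have h1 : (a == g) = false := by simpa using hag
      rw [h1]
      by_cases hah : a = h
      · subst hah
        simp only [beq_self_eq_true, if_true, Bool.false_eq_true, if_false, Nat.add_zero]
        rw [Nat.add_mul, Nat.one_mul]
        omega
      · have : (a == h) = false := by simpa using hah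
        rw [this]
        simp only [Bool.false_eq_true, if_false, Nat.add_zero]
        omega

theorem bw_cons (r : ℕ) (R : List ℕ) (B : ℕ → List ℕ) :
    Bw (r :: R) B = (B r ++ [3 * r + 2]) ++ Bw R B := by
  simp [Bw]

theorem bw_append (R R' : List ℕ) (B : ℕ → List ℕ) : Bw (R ++ R') B = Bw R B ++ Bw R' B := by
  simp [Bw]

theorem bw_congr {R : List ℕ} {B B' : ℕ → List ℕ} (h : ∀ r ∈ R, B r = B' r) :
    Bw R B = Bw R B' := by
  unfold Bw
  induction R with
  | nil => rfl
  | cons r R ih =>
    rw [List.flatMap_cons, List.flatMap_cons, h r (by simp),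
      ih (fun s hs => h s (List.mem_cons_of_mem _ hs))]

/-- a separator occurs at most once -/
theorem sep_count {s : ℕ} (hs : s % 3 = 2) : ∀ (R : List ℕ) (B : ℕ → List ℕ), R.Nodup →
    (∀ r ∈ R, SFr (B r)) → (Bw R B).count s ≤ 1 := by
  have key : ∀ (R : List ℕ) (B : ℕ → List ℕ), (∀ r ∈ R, SFr (B r)) →
      (Bw R B).count s = R.count (s / 3) := by
    intro R B
    induction R with
    | nil => intro _; simp [Bw]
    | cons r R ih =>
      intro hB
      rw [bw_cons, List.count_append, List.count_append, ih (fun q hq => hB q (by simp [hq])),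
        List.count_cons]
      have h1 : (B r).count s = 0 := by
        rw [List.count_eq_zero]
        intro hm
        exact hB r (by simp) s hm hs
      rw [h1, List.count_cons]
      by_cases h : r = s / 3
      · have h3 : 3 * (s / 3) + 2 = s := by omega
        simp [h, h3, Nat.add_comm]
      · have h3 : ¬ (3 * r + 2 = s) := by omega
        simp [h, h3]
  intro R B hn hB
  rw [key R B hB]
  exact List.nodup_iff_count_le_one.mp hn _

theorem le_one_of_all_eq {l : List ℕ} (hn : l.Nodup) (h : ∀ a ∈ l, ∀ b ∈ l, a = b) :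
    l.length ≤ 1 := by
  match l, hn, h with
  | [], _, _ => simp
  | [a], _, _ => simp
  | a :: b :: l, hn, h =>
    exfalso
    have h1 := h a (by simp) b (by simp)
    subst h1
    simp at hn

theorem flat_eq_map {f : ℕ → List ℕ} {z : ℕ → ℕ} : ∀ T : List ℕ, T.flatMap f = T.map z →
    (∀ j ∈ T, (f j).length ≤ 1) → ∀ j ∈ T, f j = [z j] := by
  intro T
  induction T with
  | nil => intro _ _ j hj; simp at hj
  | cons t T ih =>
    intro h hl j hj
    rw [List.flatMap_cons, List.map_cons] at h
    have hlen : ∀ T' : List ℕ, (∀ j ∈ T', (f j).length ≤ 1) → (T'.flatMap f).length ≤ T'.length := by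
      intro T' hT'
      induction T' with
      | nil => simp
      | cons s T' ih' =>
        rw [List.flatMap_cons, List.length_append, List.length_cons]
        have h1 := hT' s (by simp)
        have h2 := ih' (fun j hj => hT' j (List.mem_cons_of_mem _ hj))
        omega
    have h1 := hl t (by simp)
    have h2 := hlen T (fun j hj => hl j (List.mem_cons_of_mem _ hj))
    have h3 : f t = [z t] := by
      match hf : f t, h1 with
      | [], _ =>
        exfalso
        rw [hf, List.nil_append] at h
        have h4 := congrArg List.length h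
        rw [List.length_cons, List.length_map] at h4
        omega
      | [a], _ =>
        rw [hf, List.singleton_append] at h
        rw [(List.cons.inj h).1]
    have h4 : T.flatMap f = T.map z := by
      rw [h3, List.singleton_append] at h
      exact (List.cons.inj h).2
    rcases List.mem_cons.mp hj with hj | hj
    · rw [hj]; exact h3
    · exact ih h4 (fun j hj => hl j (List.mem_cons_of_mem _ hj)) j hj

/-- the core: the images of the places in one side -/
theorem core (P S : List ℕ) (B : ℕ → List ℕ) (A0 A1 : List ℕ) (κ : ℕ → ℕ) (φ : ℕ → List ℕ)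
    (M N : List ℕ) (hP : P.Nodup) (hκ : ∀ i ∈ S, i ∈ P → κ i = 3 * i + 1)
    (hblk : ∀ i ∈ S, i ∈ P → (B (i + 1)).count (3 * i + 1) = 1)
    (hZ : ∀ i ∈ S, i ∈ P →
      (A0 ++ (P.flatMap (fun i => B (i + 1) ++ [3 * (i + 1) + 2]) ++ A1)).count (3 * i + 1) = 1)
    (heq : M ++ ((P.flatMap (fun i => [κ i, 3 * (i + 1) + 2])).flatMap φ ++ N) =
      A0 ++ (P.flatMap (fun i => B (i + 1) ++ [3 * (i + 1) + 2]) ++ A1))
    (hone : ∀ j ∈ S, j ∈ P → ∀ i ∈ S, i ∈ P → ∀ i' ∈ S, i' ∈ P → 3 * i + 1 ∈ φ (3 * j + 1) →
      3 * i' + 1 ∈ φ (3 * j + 1) → i = i')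
    (hex : ∀ i ∈ S, i ∈ P → ∃ j ∈ S, j ∈ P ∧ 3 * i + 1 ∈ φ (3 * j + 1)) :
    ∀ i ∈ S, i ∈ P → ∀ j ∈ S, j ∈ P → 3 * i + 1 ∈ φ (3 * j + 1) → i = j := by
  classical
  set q : ℕ → Bool := fun c => decide (∃ i ∈ S, i ∈ P ∧ c = 3 * i + 1) with hq
  set T : List ℕ := P.filter (fun i => decide (i ∈ S)) with hT
  have hTm : ∀ i, i ∈ T ↔ i ∈ P ∧ i ∈ S := by
    intro i
    rw [hT, List.mem_filter, decide_eq_true_eq]
  have hTn : T.Nodup := hP.filter _
  have hmapn : (T.map (fun i => 3 * i + 1)).Nodup := by
    refine hTn.map ?_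
    intro a b hab
    simp only at hab
    omega
  -- the word filtered
  have hcnt0 : ∀ i ∈ S, i ∈ P → ∀ s ∈ P, s ≠ i → 3 * i + 1 ∉ B (s + 1) := by
    intro i hiS hiP s hs hsi hm
    have h1 := hZ i hiS hiP
    rw [List.count_append, List.count_append] at h1
    have h2 : 2 ≤ (P.flatMap (fun i => B (i + 1) ++ [3 * (i + 1) + 2])).count (3 * i + 1) := by
      have h3 := cnt_ge2 (fun i => B (i + 1) ++ [3 * (i + 1) + 2]) (3 * i + 1) i s (Ne.symm hsi) P
      have h4 : 1 ≤ P.count i := List.one_le_count_iff.mpr hiP
      have h5 : 1 ≤ P.count s := List.one_le_count_iff.mpr hs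
      have h6 : 1 ≤ (B (i + 1) ++ [3 * (i + 1) + 2]).count (3 * i + 1) := by
        rw [List.count_append, hblk i hiS hiP]; omega
      have h7 : 1 ≤ (B (s + 1) ++ [3 * (s + 1) + 2]).count (3 * i + 1) := by
        rw [List.count_append]
        have := List.one_le_count_iff.mpr hm
        omega
      have h8 : 1 * 1 ≤ P.count i * (B (i + 1) ++ [3 * (i + 1) + 2]).count (3 * i + 1) :=
        Nat.mul_le_mul h4 h6
      have h9 : 1 * 1 ≤ P.count s * (B (s + 1) ++ [3 * (s + 1) + 2]).count (3 * i + 1) :=
        Nat.mul_le_mul h5 h7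
      omega
    omega
  have hside : ∀ i ∈ S, i ∈ P → 3 * i + 1 ∉ A0 ∧ 3 * i + 1 ∉ A1 := by
    intro i hiS hiP
    have h1 := hZ i hiS hiP
    rw [List.count_append, List.count_append] at h1
    have h3 := cnt_ge (fun i => B (i + 1) ++ [3 * (i + 1) + 2]) (3 * i + 1) i P
    have h4 : 1 ≤ P.count i := List.one_le_count_iff.mpr hiP
    have h6 : 1 ≤ (B (i + 1) ++ [3 * (i + 1) + 2]).count (3 * i + 1) := by
      rw [List.count_append, hblk i hiS hiP]; omega
    have h8 : 1 * 1 ≤ P.count i * (B (i + 1) ++ [3 * (i + 1) + 2]).count (3 * i + 1) :=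
      Nat.mul_le_mul h4 h6
    constructor
    · rw [← List.count_eq_zero]; omega
    · rw [← List.count_eq_zero]; omega
  have hfB : ∀ i ∈ P, (B (i + 1) ++ [3 * (i + 1) + 2]).filter q =
      if i ∈ S then [3 * i + 1] else [] := by
    intro i hi
    have hsep : [3 * (i + 1) + 2].filter q = [] := by
      rw [List.filter_eq_nil_iff]
      intro a ha hqa
      rw [hq] at hqa
      simp only [decide_eq_true_eq] at hqa
      obtain ⟨j, _, _, hj⟩ := hqa
      simp only [List.mem_singleton] at ha
      omega
    rw [List.filter_append, hsep, List.append_nil]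
    by_cases hiS : i ∈ S
    · rw [if_pos hiS]
      have h1 : (B (i + 1)).filter q = (B (i + 1)).filter (fun a => decide (a = 3 * i + 1)) := by
        apply List.filter_congr
        intro a ha
        rw [hq]
        simp only [decide_eq_decide]
        constructor
        · rintro ⟨j, hjS, hjP, hja⟩
          by_cases hji : i = j
          · rw [hji]; exact hja
          · exfalso
            rw [hja] at ha
            exact hcnt0 j hjS hjP i hi hji ha
        · intro h
          exact ⟨i, hiS, hi, h⟩
      rw [h1]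
      have h2 : (B (i + 1)).filter (fun a => decide (a = 3 * i + 1)) =
          List.replicate ((B (i + 1)).count (3 * i + 1)) (3 * i + 1) := by
        rw [← List.filter_beq]
        apply List.filter_congr
        intro a _
        by_cases ha : a = 3 * i + 1 <;> simp [ha]
      rw [h2, hblk i hiS hi]
      rfl
    · rw [if_neg hiS, List.filter_eq_nil_iff]
      intro a ha hqa
      rw [hq] at hqa
      simp only [decide_eq_true_eq] at hqa
      obtain ⟨j, hjS, hjP, hja⟩ := hqa
      have hji : i ≠ j := by
        intro h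
        rw [h] at hiS
        exact hiS hjS
      rw [hja] at ha
      exact hcnt0 j hjS hjP i hi hji ha
  have hfil : ∀ P' : List ℕ, (∀ i ∈ P', i ∈ P) →
      (P'.flatMap (fun i => B (i + 1) ++ [3 * (i + 1) + 2])).filter q =
        (P'.filter (fun i => decide (i ∈ S))).map (fun i => 3 * i + 1) := by
    intro P'
    induction P' with
    | nil => intro _; rfl
    | cons t P' ih =>
      intro hsub
      rw [List.flatMap_cons, List.filter_append, hfB t (hsub t (by simp)),
        ih (fun i hi => hsub i (List.mem_cons_of_mem _ hi))]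
      by_cases htS : t ∈ S
      · rw [if_pos htS, List.filter_cons_of_pos (by simpa using htS), List.map_cons]
        rfl
      · rw [if_neg htS, List.filter_cons_of_neg (by simpa using htS)]
        rfl
  have hA : ∀ A : List ℕ, (∀ i ∈ S, i ∈ P → 3 * i + 1 ∉ A) → A.filter q = [] := by
    intro A h
    rw [List.filter_eq_nil_iff]
    intro a ha hqa
    rw [hq] at hqa
    simp only [decide_eq_true_eq] at hqa
    obtain ⟨j, hjS, hjP, hja⟩ := hqa
    rw [hja] at ha
    exact h j hjS hjP ha
  have heqf := congrArg (List.filter q) heq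
  rw [List.filter_append, List.filter_append, List.filter_append, List.filter_append,
    hA A0 (fun i h1 h2 => (hside i h1 h2).1), hA A1 (fun i h1 h2 => (hside i h1 h2).2),
    hfil P (fun i hi => hi), List.nil_append, List.append_nil, ← hT] at heqf
  -- sublist
  have hsub : ∀ P' : List ℕ, (∀ i ∈ P', i ∈ P) →
      ((P'.filter (fun i => decide (i ∈ S))).flatMap (fun j => (φ (3 * j + 1)).filter q)).Sublist
        (((P'.flatMap (fun i => [κ i, 3 * (i + 1) + 2])).flatMap φ).filter q) := by
    intro P'
    induction P' with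
    | nil => intro _; simp
    | cons t P' ih =>
      intro hs
      have ih' := ih (fun i hi => hs i (List.mem_cons_of_mem _ hi))
      rw [List.flatMap_cons, List.flatMap_append, List.filter_append]
      have e1 : ([κ t, 3 * (t + 1) + 2] : List ℕ).flatMap φ = φ (κ t) ++ φ (3 * (t + 1) + 2) := by
        simp
      rw [e1, List.filter_append, List.append_assoc]
      by_cases htS : t ∈ S
      · rw [List.filter_cons_of_pos (by simpa using htS), List.flatMap_cons,
          hκ t htS (hs t (by simp))]
        exact List.Sublist.append (List.Sublist.refl _)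
          (ih'.trans (List.sublist_append_right _ _))
      · rw [List.filter_cons_of_neg (by simpa using htS)]
        exact (ih'.trans (List.sublist_append_right _ _)).trans (List.sublist_append_right _ _)
  have hs1 : (T.flatMap (fun j => (φ (3 * j + 1)).filter q)).Sublist
      (T.map (fun i => 3 * i + 1)) := by
    rw [← heqf, hT]
    exact ((hsub P (fun i hi => hi)).trans (List.sublist_append_left _ _)).trans
      (List.sublist_append_right _ _)
  have hs2 : T.map (fun i => 3 * i + 1) ⊆ T.flatMap (fun j => (φ (3 * j + 1)).filter q) := by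
    intro a ha
    obtain ⟨i, hi, hia⟩ := List.mem_map.mp ha
    obtain ⟨hiP, hiS⟩ := (hTm i).mp hi
    obtain ⟨j, hjS, hjP, hj⟩ := hex i hiS hiP
    rw [List.mem_flatMap]
    refine ⟨j, (hTm j).mpr ⟨hjP, hjS⟩, ?_⟩
    rw [List.mem_filter, ← hia]
    refine ⟨hj, ?_⟩
    rw [hq]
    simp only [decide_eq_true_eq]
    exact ⟨i, hiS, hiP, rfl⟩
  have hlen : (T.map (fun i => 3 * i + 1)).length ≤
      (T.flatMap (fun j => (φ (3 * j + 1)).filter q)).length :=
    (List.subperm_of_subset hmapn hs2).length_le
  have hE := hs1.eq_of_length_le hlen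
  have hl1 : ∀ j ∈ T, ((φ (3 * j + 1)).filter q).length ≤ 1 := by
    intro j hj
    obtain ⟨hjP, hjS⟩ := (hTm j).mp hj
    apply le_one_of_all_eq
    · have h1 : ((φ (3 * j + 1)).filter q).Sublist
          (T.flatMap (fun j => (φ (3 * j + 1)).filter q)) := by
        obtain ⟨T1, T2, hT12⟩ := List.append_of_mem hj
        rw [hT12, List.flatMap_append, List.flatMap_cons]
        exact (List.sublist_append_left _ _).trans (List.sublist_append_right _ _)
      rw [hE] at h1
      exact hmapn.sublist h1
    · intro a ha b hb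
      rw [List.mem_filter, hq] at ha hb
      simp only [decide_eq_true_eq] at ha hb
      obtain ⟨ha1, i, hiS, hiP, hia⟩ := ha
      obtain ⟨hb1, i', hiS', hiP', hib⟩ := hb
      rw [hia] at ha1
      rw [hib] at hb1
      rw [hia, hib, hone j hjS hjP i hiS hiP i' hiS' hiP' ha1 hb1]
  have hfin := flat_eq_map T hE hl1
  intro i hiS hiP j hjS hjP hij
  have h1 : (φ (3 * j + 1)).filter q = [3 * j + 1] := hfin j ((hTm j).mpr ⟨hjP, hjS⟩)
  have h2 : 3 * i + 1 ∈ (φ (3 * j + 1)).filter q := by
    rw [List.mem_filter]
    refine ⟨hij, ?_⟩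
    rw [hq]
    simp only [decide_eq_true_eq]
    exact ⟨i, hiS, hiP, rfl⟩
  rw [h1, List.mem_singleton] at h2
  omega

end Pool.Agent.MVD.H11
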