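import Pool.Agent.Helper10_MVD.LIN
import Pool.Agent.Helper31_MVD.DEC
import Pool.Agent.Helper77_MVD.KP2
import Pool.Agent.Helper48_MVD.KPL
import Pool.Agent.Helper21_MVD.UNI
import Pool.Agent.Helper66_MVD.FAC
import Pool.Agent.Helper27_MVD.CTX
import Pool.Agent.Helper16_MVD.CTY
import Pool.Agent.Helper6_MVD.TRC
import Pool.Agent.Helper10_MVD.INW
import Pool.Agent.Helper97_MVD.INS
import Pool.Agent.Helper81_MVD.MIR
import Pool.Agent.Helper21_MVD.SHP
import Pool.Agent.Helper40_MVD.FCT
import Pool.Agent.Helper48_MVD.PWS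
import Pool.Agent.Helper40_MVD.KEY
import Pool.Agent.Helper10_MVD.PN2
import Pool.Agent.Helper44_MVD.SHW
import Pool.Agent.Helper25_MVD.COR
import Pool.Agent.Helper77_MVD.KAP
import Pool.Agent.Helper62_MVD.F1K
import Pool.Agent.Helper65_MVD.FIN
import Pool.Agent.Helper21_MVD.PEN
import Pool.Agent.Helper32_MVD.GEN
import Pool.Agent.Helper44_MVD.NT3
import Pool.Agent.Helper92_MVD.NT4
import Pool.Agent.Helper2_MVD.NT5
import Pool.Agent.Helper23_MVD.KPF
import Pool.Agent.Helper47_MVD.STF
import Pool.Agent.Helper31_MVD.PEF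
import Pool.Agent.Helper62_MVD.ORD
import Pool.Agent.Helper28_MVD.PRP
import Pool.Agent.Helper38_MVD.FFC
import Pool.Agent.Helper91_MVD.FFL
import Pool.Agent.Helper65_MVD.FFR
import Pool.Agent.Helper32_MVD.ASM

/-!
# The necessity of the class division, without hypotheses

Composition of the rows of squad MVD (problem MP_23468a_al).
-/

namespace Pool.Agent.MVD.H11

open Pool.Agent.Helper14_MV Pool.Agent.Helper2_MV

theorem hDec : DecStmt := H31.dec H10.lin
theorem hShp : ShpStmt := H21.shp hDec H77.kp2 H48.kpl H21.uni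
theorem hKey : KeyStmt := H40.key H21.uni H66.fac H40.fct
theorem hPn2 : Pn2Stmt := H10.pn2 hShp H48.pws hKey H21.uni
theorem hShw : ShwStmt := H44.shw hDec H77.kp2 H48.kpl
theorem hCor : CorStmt := H25.cor hPn2 hShw H16.cty
theorem hKap : KapStmt := H77.kap hPn2 hShw H16.cty
theorem hF1k : F1kStmt := H62.f1k hKap H10.inw H16.cty
theorem hNt3 : Nt3Stmt := H44.nt3 H65.fin H21.pen H32.gen hDec H77.kp2 H48.kpl H16.cty
theorem hNt4 : Nt4Stmt :=
  Pool.Agent.Helper92_MVD.nt4 H65.fin H21.pen H32.gen hDec H77.kp2 H48.kpl H27.ctx H16.cty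
theorem hNt5 : Nt5Stmt := H2.nt5 H65.fin H21.pen H32.gen hDec H77.kp2 H27.ctx H16.cty
theorem hKpf : KpfStmt := H23.kpf hDec H77.kp2 H21.uni
theorem hStf : StfStmt := H47.stf H21.uni H66.fac
theorem hPef : PefStmt := H31.pef hKpf hStf H21.uni
theorem hPrp : PrpStmt := H28.prp hPef hDec H77.kp2 H62.ord H6.trc H27.ctx
theorem hFfc : FfcStmt := H38.ffc hPrp H97.ins H27.ctx
theorem hFfl : FflStmt := H91.ffl hPrp H97.ins H27.ctx
theorem hFfr : FfrStmt := H65.ffr hPrp H97.ins H27.ctx

/-- **The necessity of the class division.**  If `x²` and `xyx` are isoterms for `β` and the lattice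
of the fully invariant congruences above `β` is modular, then `β` is in one of the five classes. -/
theorem division : AsmStmt := H32.asm H81.mir hCor hNt3 hNt4 hNt5 hF1k hFfc hFfl hFfr

end Pool.Agent.MVD.H11
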