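import Pool.Agent.Helper11_MVD.LocB
import Pool.Agent.Helper55_MVD.NCB
import Pool.Agent.Helper62_MVD.ESC

/-!
# The necessity of the local condition, final composition
-/

namespace Pool.Agent.MVD.H11

open Pool.Agent.Helper14_MV Pool.Agent.Helper2_MV

theorem gNcb : NcbStmt := H55.ncb H21.pen H32.gen gSha gTy3 H82.rga H5.rgd H27.ctx H66.fac
theorem gEsc : EscStmt := H62.esc gSha gXvb gEfa gEfb H82.rga H5.rgd gErd gErn

/-- The theorem of block LOC, without hypotheses. -/
theorem loc : LcnStmt := locB gNcb gEsc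

end Pool.Agent.MVD.H11
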