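import Pool.Agent.Helper11_MVD.Div
import Pool.Agent.Helper66_MVD.IRL
import Pool.Agent.Helper64_MVD.SHA
import Pool.Agent.Helper82_MVD.RGA
import Pool.Agent.Helper5_MVD.RGD
import Pool.Agent.Helper14_MVD.GTM
import Pool.Agent.Helper90_MVD.CTG
import Pool.Agent.Helper80_MVD.INX
import Pool.Agent.Helper60_MVD.INE
import Pool.Agent.Helper91_MVD.MRL
import Pool.Agent.Helper47_MVD.GFK
import Pool.Agent.Helper45_MVD.CPW
import Pool.Agent.Helper10_MVD.EIS
import Pool.Agent.Helper3_MVD.SNG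
import Pool.Agent.Helper11_MVD.CNT
import Pool.Agent.Helper27_MVD.TY3
import Pool.Agent.Helper48_MVD.VEC
import Pool.Agent.Helper95_MVD.XVB
import Pool.Agent.Helper55_MVD.GRD
import Pool.Agent.Helper39_MVD.GFE
import Pool.Agent.Helper98_MVD.GHH
import Pool.Agent.Helper70_MVD.STB
import Pool.Agent.Helper47_MVD.STC
import Pool.Agent.Helper8_MVD.GIN
import Pool.Agent.Helper23_MVD.ECN
import Pool.Agent.Helper43_MVD.ERD
import Pool.Agent.Helper43_MVD.HPR
import Pool.Agent.Helper89_MVD.ERN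
import Pool.Agent.Helper71_MVD.ESB
import Pool.Agent.Helper41_MVD.EIN
import Pool.Agent.Helper26_MVD.TRE
import Pool.Agent.Helper39_MVD.TRG
import Pool.Agent.Helper94_MVD.LCN

/-!
# The necessity of the local condition, composition (part A)
-/

namespace Pool.Agent.MVD.H11

open Pool.Agent.Helper14_MV Pool.Agent.Helper2_MV

theorem gIrl : IrlStmt := H66.irl
theorem gSha : ShaStmt := H64.sha hDec H77.kp2 H48.kpl
theorem gGtm : GtmStmt := H14.gtm H27.ctx
theorem gCtg : CtgStmt := H90.ctg gGtm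
theorem gInx : InxStmt := H80.inx H10.inw
theorem gIne : IneStmt := H60.ine
theorem gMrl : MrlStmt := H91.mrl H81.mir
theorem gGfk : GfkStmt := H47.gfk H27.ctx
theorem gCpw : CpwStmt := H45.cpw
theorem gEis : EisStmt := H10.eis gIrl
theorem gSng : SngStmt := H3.sng H66.fac
theorem gTy3 : Ty3Stmt := H27.ty3 gCpw H27.ctx
theorem gVec : VecStmt := H48.vec H27.ctx
theorem gXvb : XvbStmt := H95.xvb
theorem gGrd : GrdStmt := H55.grd gIrl H27.ctx
theorem gGfe : GfeStmt := H39.gfe gIrl H27.ctx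
theorem gGhh : GhhStmt := H98.ghh gSha gCtg gIrl gGfe gCpw
theorem gStb : StbStmt := H70.stb gSha gGhh
theorem gStc : StcStmt := H47.stc gSha gGhh gIrl H62.ord H27.ctx
theorem gEcn : EcnStmt := H23.Ecn.ecn gIne gGfk gMrl
theorem gErd : ErdStmt := H43.erd gEis H27.ctx
theorem gHpr : HprStmt := H43.hpr gXvb
theorem gTre : TreStmt := H26.tre
theorem gTrg : TrgStmt := H39.trg gGfk H27.ctx

end Pool.Agent.MVD.H11
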