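import Pool.Agent.Helper11_MVD.LocA
import Pool.Agent.Helper69_MVD.NCE
import Pool.Agent.Helper44_MVD.GCN
import Pool.Agent.Helper41_MVD.GPN
import Pool.Agent.Helper35_MVD.EFA
import Pool.Agent.Helper35_MVD.EFB
import Pool.Agent.Helper88_MVD.EPN

/-!
# The necessity of the local condition, composition (part B)
-/

namespace Pool.Agent.MVD.H11

open Pool.Agent.Helper14_MV Pool.Agent.Helper2_MV

theorem gNce : NceStmt := H69.nce gSha gVec gXvb H82.rga H5.rgd
theorem gGcn : GcnStmt := H44.gcn gInx gGfk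
theorem gGpn : GpnStmt := H41.gpn H21.pen H32.gen H66.fac gSng cnt gStb gStc
theorem gGin : GinStmt := H8.gin gGcn gGrd gGpn
theorem gEfa : EfaStmt := H35.efa gSha gXvb H82.rga H5.rgd gErd gEis gIrl gCtg
theorem gEfb : EfbStmt := H35.efb gSha gXvb H82.rga H5.rgd gErd gEis gIrl gCtg H27.ctx
theorem gErn : ErnStmt := H89.ern
theorem gEsb : EsbStmt := H71.esb gSha gXvb gEfa gHpr H82.rga H5.rgd gErd

theorem gEpn (esc : EscStmt) : EpnStmt :=
  H88.epn H21.pen H32.gen H66.fac cnt gSng gErd gEsb esc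
theorem gEin (esc : EscStmt) : EinStmt := H41.ein gEcn gVec (gEpn esc) H27.ctx

theorem locB (ncb : NcbStmt) (esc : EscStmt) : LcnStmt :=
  H94.lcn H81.mir gMrl ncb gNce gGin (gEin esc) gTre gTrg

end Pool.Agent.MVD.H11
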